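import Pool.Agent.KS6_14.VD.Dec

set_option autoImplicit false

/-!
# min-Cost-VERTEX-DEL has no approximation algorithm with an almost polynomial ratio

Stabilising a graph by deleting vertices is hard to approximate within `2 ^ (log n) ^ (1 - ε)`, for
every `ε > 0`, unless `NP` is contained in quasi-polynomial time, and within every constant unless
`P = NP`; both already for graphs which become bipartite when one vertex is deleted (so that
`ν_f - ν ≤ 1/2`, and with unit costs one vertex suffices), with only two costs, one of them `1`.

Library definitions: `Inst`, `graph`, `Stable`, `Feasible`, `cost`, `TwoCosts` (instances of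
min-Cost-VERTEX-DEL: the list of the costs of the vertices `0, …, n - 1` and a list of edges;
feasible solutions are lists of vertices whose deletion leaves a graph with `ν = ν_f`), `PolyTime`,
`InNP`, `InP`, `bits` (polynomial time on Turing machines, the standard code of finite objects).
Own definitions, in `Pool/Agent/KS6_14/VD/Defs.lean`: `NearBip`, `ApproxRatio`, `InQP`.

Proof. The deletion problem can express monotone formulas of unbounded depth, not only Set Cover:
one triangle is joined to the root of a tree of vertices; vertices of large cost which must be
matched downwards once their upper neighbour is active are the conjunctions of disjunctions; the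
leaves are joined to many copies of cheap vertices, one group of copies for each variable.  Hence
the instances which arise from Hitting Set by composing its formula `K + 1` times with itself are
instances of the deletion problem, and the gap `2` given by the PCP theorem becomes a gap `2 ^ K`,
while the number of vertices is only `n ^ O(K)`.
-/

namespace Pool.Agent.Results.MP_f82fc2_lc.AlmostPolynomialRatio

open Pool.Agent.NPC Pool.Agent.H569R2.VDel Pool.Agent.KS6_14.VD

/-- **min-Cost-VERTEX-DEL has no approximation algorithm with ratio `2 ^ (log n) ^ (1 - ε)`.**
(1) Gap theorem: for every language `L` in `NP` there are a constant `C`, instances `f x K` with two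
costs whose graphs are nearly bipartite and have at most `(|x| + 2) ^ (C (K + 1))` vertices, and
numbers `k x K > 0`, computable in polynomial time from `x`, `K` and any number
`s ≥ (|x| + 2) ^ (C (K + 1))` of marks, such that the optimum of `f x K` is at most `k x K` if
`x ∈ L` and greater than `2 ^ K * k x K` if `x ∉ L`.
(2) If min-Cost-VERTEX-DEL, only for nearly bipartite instances with two costs, has a
polynomial-time approximation algorithm with a constant ratio, then `P = NP`.
(3) If it has one with the ratio `2 ^ (log₂ n) ^ (1 - ε)`, where `n` is the number of vertices, for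
some `ε > 0`, then every language in `NP` is decided in quasi-polynomial time. -/
theorem result :
    (∀ L : Set (List Bool), InNP L →
      ∃ (C : ℕ) (f : List Bool → ℕ → Inst) (k : List Bool → ℕ → ℕ) (F : List Bool → List Bool),
        PolyTime F ∧
        (∀ (x : List Bool) (K s : ℕ), (x.length + 2) ^ (C * (K + 1)) ≤ s →
          F (bits (x, K, List.replicate s ())) = bits (f x K, k x K)) ∧
        ∀ (x : List Bool) (K : ℕ), TwoCosts (f x K) ∧ NearBip (f x K) ∧
          (f x K).1.length ≤ (x.length + 2) ^ (C * (K + 1)) ∧ 0 < k x K ∧
          (x ∈ L → ∃ S, Feasible (f x K) S ∧ cost (f x K) S ≤ k x K) ∧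
          (x ∉ L → ∀ S, Feasible (f x K) S → 2 ^ K * k x K < cost (f x K) S)) ∧
    (∀ α : ℝ, ApproxRatio (fun I => TwoCosts I ∧ NearBip I) (fun _ => α) →
      ∀ L : Set (List Bool), InNP L → InP L) ∧
    ∀ ε : ℝ, 0 < ε → ε < 1 →
      ApproxRatio (fun I => TwoCosts I ∧ NearBip I) (fun n => 2 ^ (Real.logb 2 n) ^ (1 - ε)) →
      ∀ L : Set (List Bool), InNP L → InQP L := by
  refine ⟨fun L hL => ?_, fun α h L hL => inP_of_const h hL,
    fun ε h0 h1 h L hL => inQP_of_ratio h0 h1 h hL⟩
  obtain ⟨C, f, k, g, hg, hgs, hfk⟩ := gapK hL
  have h1 : NPC.Poly (fun z : List Bool => (unbits (List Bool × ℕ × List Unit) z).map g) :=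
    Poly.optMap (f := fun _ p => g p) poly_unbits (hg.comp (Poly.snd Poly.id))
  refine ⟨C, f, k, _, polyTime_opt h1, ?_, hfk⟩
  intro x K s hs
  rw [unbits_bits, Option.map_some, hgs x K s hs]

end Pool.Agent.Results.MP_f82fc2_lc.AlmostPolynomialRatio
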